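import Pool.Agent.Y716.D.Defs

/-!
# Few bad pairs (project D of helper716, part D2e)
-/

set_option autoImplicit false

namespace Pool.Agent.Y170.D

open Pool.Agent.Y716.Q Pool.Agent.Y716.C Pool.Agent.Y716.D

variable {ι : Type*} [Fintype ι]

open Classical in
/-- The box. -/
noncomputable def bx (ι : Type*) [Fintype ι] (R : ℝ) : Finset (ι → ℤ) :=
  Fintype.piFinset fun _ => Finset.Icc (-⌊R⌋) ⌊R⌋

theorem mem_bx {R : ℝ} {l : ι → ℤ} : l ∈ bx ι R ↔ ∀ i, |(l i : ℝ)| ≤ R := by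
  classical
  unfold bx
  rw [Fintype.mem_piFinset]
  refine forall_congr' fun i => ?_
  rw [Finset.mem_Icc, abs_le, Int.le_floor]
  constructor
  · rintro ⟨h1, h2⟩
    refine ⟨?_, h2⟩
    have h3 : -(l i) ≤ ⌊R⌋ := by linarith
    have := Int.le_floor.1 h3
    push_cast at this
    linarith
  · rintro ⟨h1, h2⟩
    refine ⟨?_, h2⟩
    have : -(l i) ≤ ⌊R⌋ := Int.le_floor.2 (by push_cast; linarith)
    linarith

theorem card_bx {R : ℝ} (hR : 0 ≤ R) : ((bx ι R).card : ℝ) ≤ (2 * R + 1) ^ Fintype.card ι := by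
  classical
  unfold bx
  rw [Fintype.card_piFinset, Finset.prod_const, Finset.card_univ, Int.card_Icc, Nat.cast_pow]
  have h0 : 0 ≤ ⌊R⌋ := Int.floor_nonneg.2 hR
  have h1 : (((⌊R⌋ + 1 - -⌊R⌋).toNat : ℕ) : ℝ) = 2 * (⌊R⌋ : ℝ) + 1 := by
    have : (((⌊R⌋ + 1 - -⌊R⌋).toNat : ℕ) : ℤ) = 2 * ⌊R⌋ + 1 := by
      rw [Int.toNat_of_nonneg (by linarith)]; ring
    exact_mod_cast this
  rw [h1]
  have h2 : (⌊R⌋ : ℝ) ≤ R := Int.floor_le R
  have h3 : (0 : ℝ) ≤ ⌊R⌋ := by exact_mod_cast h0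
  gcongr

/-- Two vectors orthogonal to `k - 1` independent vectors are proportional. -/
theorem mn_zero (hk : 1 ≤ Fintype.card ι) (L : Fin (Fintype.card ι - 1) → ι → ℤ)
    (hL : LinearIndependent ℤ L) (y y' : ι → ℤ) (h : ∀ j, dot (L j) y = 0)
    (h' : ∀ j, dot (L j) y' = 0) (i i' : ι) : mn y y' i i' = 0 := by
  classical
  let c : (ι → ℤ) →ₗ[ℤ] (ι → ℚ) :=
    { toFun := fun v i => (v i : ℚ)
      map_add' := fun v w => by funext i; simp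
      map_smul' := fun a v => by funext i; simp }
  have hcinj : Function.Injective c := by
    intro v w hvw
    funext i
    have : (v i : ℚ) = (w i : ℚ) := congrFun hvw i
    exact_mod_cast this
  have h1 : LinearIndependent ℤ (fun j => c (L j)) :=
    hL.map' c (LinearMap.ker_eq_bot.2 hcinj)
  have h2 : LinearIndependent ℚ (fun j => c (L j)) := (LinearIndependent.iff_fractionRing ℤ ℚ).1 h1
  let M : Matrix (Fin (Fintype.card ι - 1)) ι ℚ := Matrix.of fun j => c (L j)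
  have hrank : M.rank = Fintype.card ι - 1 := by
    have h3 : LinearIndependent ℚ M.row := h2
    rw [h3.rank_matrix, Fintype.card_fin]
  have hker : Module.finrank ℚ (LinearMap.ker M.mulVecLin) = 1 := by
    have h4 := LinearMap.finrank_range_add_finrank_ker M.mulVecLin
    have h5 : Module.finrank ℚ (LinearMap.range M.mulVecLin) = Fintype.card ι - 1 := hrank
    rw [h5, Module.finrank_fintype_fun_eq_card] at h4
    omega
  have hmem : ∀ v : ι → ℤ, (∀ j, dot (L j) v = 0) → c v ∈ LinearMap.ker M.mulVecLin := by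
    intro v hv
    rw [LinearMap.mem_ker, Matrix.mulVecLin_apply]
    funext j
    show ∑ i, (L j i : ℚ) * (v i : ℚ) = 0
    have := hv j
    unfold dot at this
    exact_mod_cast this
  obtain ⟨v, _, hv⟩ := finrank_eq_one_iff'.1 hker
  obtain ⟨a, ha⟩ := hv ⟨c y, hmem y h⟩
  obtain ⟨b, hb⟩ := hv ⟨c y', hmem y' h'⟩
  have ha' : ∀ i, (y i : ℚ) = a * (v : ι → ℚ) i := fun i =>
    (congrFun (congrArg Subtype.val ha) i).symm
  have hb' : ∀ i, (y' i : ℚ) = b * (v : ι → ℚ) i := fun i =>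
    (congrFun (congrArg Subtype.val hb) i).symm
  have : ((mn y y' i i' : ℤ) : ℚ) = 0 := by
    unfold mn
    push_cast
    rw [ha' i, ha' i', hb' i, hb' i']
    ring
  exact_mod_cast this

/-- Proportional primitive vectors agree up to the sign. -/
theorem eq_or_neg {y y' : ι → ℤ} (hy : Prim y) (hy' : Prim y') (h : ∀ i j, mn y y' i j = 0) :
    y' = y ∨ y' = -y := by
  obtain ⟨w, hw⟩ := hy.bezout
  have h1 := eq_smul_of_minors hw h
  have h2 : IsUnit (∑ i, w i * y' i) := hy' _ fun i => ⟨y i, h1 i⟩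
  rcases Int.isUnit_iff.1 h2 with h3 | h3
  · left
    funext i
    rw [h1, h3, one_mul]
  · right
    funext i
    rw [h1, h3, Pi.neg_apply, neg_one_mul]

/-- Counting of tuples. -/
theorem card_tuples (hd : TripleCount ι) {n : ℕ} {R : ℝ} (hR : 0 ≤ R) (x z₁ z₂ z₃ : ι → ℤ)
    (hz : ∃ i j, mn x z₁ i j ≠ 0) (j₁ j₂ j₃ : Fin n) (h12 : j₁ ≠ j₂) (h13 : j₁ ≠ j₃)
    (h23 : j₂ ≠ j₃) (S : Finset (Fin n → ι → ℤ)) (hS : ∀ L ∈ S, (∀ j i, |(L j i : ℝ)| ≤ R) ∧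
      rel3 x z₁ z₂ z₃ (L j₁) (L j₂) (L j₃) = 0) :
    (S.card : ℝ) ≤ 2 * (2 * R + 1) ^ (3 * Fintype.card ι - 1) *
      ((2 * R + 1) ^ Fintype.card ι) ^ (n - 3) := by
  classical
  let s : Finset (Fin n) := {j₁, j₂, j₃}
  have hs : s.card = 3 := Finset.card_eq_three.2 ⟨j₁, j₂, j₃, h12, h13, h23, rfl⟩
  let T : Finset ((ι → ℤ) × (ι → ℤ) × (ι → ℤ)) :=
    (bx ι R ×ˢ (bx ι R ×ˢ bx ι R)).filter fun p => rel3 x z₁ z₂ z₃ p.1 p.2.1 p.2.2 = 0
  have hT : (T.card : ℝ) ≤ 2 * (2 * R + 1) ^ (3 * Fintype.card ι - 1) := by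
    refine hd x z₁ z₂ z₃ R hR (Or.inl hz) T fun p hp => ?_
    obtain ⟨h1, h2⟩ := Finset.mem_filter.1 hp
    rw [Finset.mem_product, Finset.mem_product, mem_bx, mem_bx, mem_bx] at h1
    exact ⟨h1.1, h1.2.1, h1.2.2, h2⟩
  let P : Finset ({j : Fin n // ¬ j ∈ s} → ι → ℤ) := Fintype.piFinset fun _ => bx ι R
  have hP : (P.card : ℝ) ≤ ((2 * R + 1) ^ Fintype.card ι) ^ (n - 3) := by
    have h1 : Fintype.card {j : Fin n // ¬ j ∈ s} = n - 3 := by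
      rw [Fintype.card_subtype_compl, Fintype.card_fin, Fintype.card_coe, hs]
    have h2 : P.card = (bx ι R).card ^ (n - 3) := by
      rw [Fintype.card_piFinset, Finset.prod_const, Finset.card_univ, h1]
    rw [h2, Nat.cast_pow]
    exact pow_le_pow_left₀ (Nat.cast_nonneg _) (card_bx hR) _
  have hmap : ∀ L ∈ S, ((L j₁, L j₂, L j₃), fun j : {j : Fin n // ¬ j ∈ s} => L j.1) ∈ T ×ˢ P := by
    intro L hL
    obtain ⟨h1, h2⟩ := hS L hL
    rw [Finset.mem_product]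
    refine ⟨Finset.mem_filter.2 ⟨?_, h2⟩, ?_⟩
    · rw [Finset.mem_product, Finset.mem_product, mem_bx, mem_bx, mem_bx]
      exact ⟨h1 j₁, h1 j₂, h1 j₃⟩
    · exact Fintype.mem_piFinset.2 fun j => mem_bx.2 (h1 j.1)
  have hinj : Set.InjOn (fun L : Fin n → ι → ℤ =>
      ((L j₁, L j₂, L j₃), fun j : {j : Fin n // ¬ j ∈ s} => L j.1)) S := by
    intro L _ L' _ h
    funext j
    simp only [Prod.mk.injEq] at h
    obtain ⟨⟨h1, h2, h3⟩, h4⟩ := h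
    by_cases hj : j ∈ s
    · simp only [s, Finset.mem_insert, Finset.mem_singleton] at hj
      rcases hj with rfl | rfl | rfl
      · exact h1
      · exact h2
      · exact h3
    · exact congrFun h4 ⟨j, hj⟩
  have hcard := Finset.card_le_card_of_injOn _ hmap hinj
  rw [Finset.card_product] at hcard
  have h5 : (S.card : ℝ) ≤ T.card * P.card := by exact_mod_cast hcard
  refine h5.trans ?_
  gcongr

theorem sum_bd {f g : ι → ℝ} {R ε : ℝ} (hf : ∀ i, |f i| ≤ R) (hg : ∀ i, |g i| ≤ ε) :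
    |∑ i, f i * g i| ≤ Fintype.card ι * R * ε := by
  have h1 : ∀ i, |f i * g i| ≤ R * ε := by
    intro i
    rw [abs_mul]
    exact mul_le_mul (hf i) (hg i) (abs_nonneg _) ((abs_nonneg _).trans (hf i))
  calc |∑ i, f i * g i| ≤ ∑ i, |f i * g i| := Finset.abs_sum_le_sum_abs _ _
    _ ≤ ∑ _i : ι, R * ε := Finset.sum_le_sum fun i _ => h1 i
    _ = Fintype.card ι * R * ε := by
      rw [Finset.sum_const, Finset.card_univ, nsmul_eq_mul]
      ring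

/-- The data of one bad pair. -/
theorem one_pair (hk : 4 ≤ Fintype.card ι) (ha : ShortBasis ι) (hc : Relation ι)
    {B a ε : ℝ} {x y : ι → ℤ} {Z : Finset (ι → ℤ)} (ha1 : 1 ≤ a) (haB : a ≤ B) (hε : ε ≤ 1 / 4)
    (hZ : ∀ z : ι → ℤ, (∃ γ : ℝ, ∀ i, |(z i : ℝ) - γ * (x i : ℝ)| ≤
      Fintype.card ι * (15 * Fintype.card ι * a) * ε) →
        ∃ z' ∈ Z, ∃ c : ℤ, ∀ i, z i = z' i + c * x i)
    (hS : Sz B y) (hBal : Bal B a y) (hmn : ∃ i j, mn x y i j ≠ 0) (hbad : ¬ GoodP ε x y) :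
    ∃ L : Fin (Fintype.card ι - 1) → ι → ℤ, LinearIndependent ℤ L ∧
      (∀ j i, |(L j i : ℝ)| ≤ 15 * Fintype.card ι * a) ∧ (∀ j, dot (L j) y = 0) ∧
      ∃ j₁ j₂ j₃ : Fin (Fintype.card ι - 1), j₁ ≠ j₂ ∧ j₁ ≠ j₃ ∧ j₂ ≠ j₃ ∧
      ∃ z₁ ∈ Z, ∃ z₂ ∈ Z, ∃ z₃ ∈ Z, (∃ i j, mn x z₁ i j ≠ 0) ∧
        rel3 x z₁ z₂ z₃ (L j₁) (L j₂) (L j₃) = 0 := by
  classical
  obtain ⟨L, hL1, hL2, hL3⟩ := ha B a y ha1 (ha1.trans haB) hS hBal
  unfold GoodP at hbad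
  push Not at hbad
  obtain ⟨α, β, M, hM, hno⟩ := hbad
  have hsym : ∀ i j, M i j = M j i := by
    intro i j
    have h1 := abs_lt.1 (hM i j)
    have h2 := abs_lt.1 (hM j i)
    have h3 : |((M i j - M j i : ℤ) : ℝ)| < 1 := by
      push_cast
      rw [abs_lt]
      constructor
      · nlinarith [h1.1, h1.2, h2.1, h2.2, mul_comm (x i : ℝ) (x j), mul_comm (y i : ℝ) (y j)]
      · nlinarith [h1.1, h1.2, h2.1, h2.2, mul_comm (x i : ℝ) (x j), mul_comm (y i : ℝ) (y j)]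
    have h4 : |M i j - M j i| < 1 := by exact_mod_cast h3
    have h5 := Int.abs_lt_one_iff.1 h4
    linarith
  have hcl : ∀ j, ∃ z' ∈ Z, ∃ c : ℤ, ∀ i, dot (L j) (fun i' => M i i') = z' i + c * x i := by
    intro j
    refine hZ (fun i => dot (L j) (fun i' => M i i')) ⟨α * (dot (L j) x : ℤ), fun i => ?_⟩
    have h1 : ((dot (L j) (fun i' => M i i') : ℤ) : ℝ) - α * ((dot (L j) x : ℤ) : ℝ) * (x i : ℝ) =
        -∑ i', (L j i' : ℝ) * (α * ((x i : ℝ) * (x i' : ℝ)) + β * ((y i : ℝ) * (y i' : ℝ)) -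
          (M i i' : ℝ)) := by
      have h2 : ∑ i', (L j i' : ℝ) * (y i' : ℝ) = 0 := by
        have := hL3 j
        exact_mod_cast this
      have h3 : ∑ i', (L j i' : ℝ) * (α * ((x i : ℝ) * (x i' : ℝ)) + β * ((y i : ℝ) * (y i' : ℝ)) -
          (M i i' : ℝ)) = α * (x i : ℝ) * ∑ i', (L j i' : ℝ) * (x i' : ℝ) +
          β * (y i : ℝ) * ∑ i', (L j i' : ℝ) * (y i' : ℝ) - ∑ i', (L j i' : ℝ) * (M i i' : ℝ) := by
        rw [Finset.mul_sum, Finset.mul_sum, ← Finset.sum_add_distrib, ← Finset.sum_sub_distrib]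
        refine Finset.sum_congr rfl fun i' _ => ?_
        ring
      rw [h3, h2]
      unfold dot
      push_cast
      ring
    rw [h1, abs_neg]
    exact sum_bd (fun i' => hL2 j i') fun i' => (hM i i').le
  choose z hzZ c hzc using hcl
  obtain ⟨hr1, hr2⟩ := hc x y L M z c hmn hL1 hL3 hsym hzc
  have hj1 : ∃ j i i', mn x (z j) i i' ≠ 0 := by
    by_contra hcon
    push Not at hcon
    obtain ⟨α', β', h⟩ := hr2 hcon
    obtain ⟨i, j, hij⟩ := hno α' β'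
    exact hij (h i j)
  obtain ⟨j₁, i, i', hj₁⟩ := hj1
  obtain ⟨j₂, hj2⟩ : ∃ j₂ : Fin (Fintype.card ι - 1), j₂ ∉ ({j₁} : Finset _) := by
    by_contra hcon
    push Not at hcon
    have h1 : (Finset.univ : Finset (Fin (Fintype.card ι - 1))) ⊆ {j₁} := fun j _ => hcon j
    have h2 := Finset.card_le_card h1
    rw [Finset.card_univ, Fintype.card_fin, Finset.card_singleton] at h2
    omega
  obtain ⟨j₃, hj3⟩ : ∃ j₃ : Fin (Fintype.card ι - 1), j₃ ∉ ({j₁, j₂} : Finset _) := by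
    by_contra hcon
    push Not at hcon
    have h1 : (Finset.univ : Finset (Fin (Fintype.card ι - 1))) ⊆ {j₁, j₂} := fun j _ => hcon j
    have h2 := Finset.card_le_card h1
    have h3 : ({j₁, j₂} : Finset (Fin (Fintype.card ι - 1))).card ≤ 2 := Finset.card_le_two
    rw [Finset.card_univ, Fintype.card_fin] at h2
    omega
  simp only [Finset.mem_insert, Finset.mem_singleton, not_or] at hj2 hj3
  exact ⟨L, hL1, hL2, hL3, j₁, j₂, j₃, fun h => hj2 h.symm, fun h => hj3.1 h.symm,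
    fun h => hj3.2 h.symm, z j₁, hzZ _, z j₂, hzZ _, z j₃, hzZ _, ⟨i, i', hj₁⟩, hr1 j₁ j₂ j₃⟩

theorem bad_pairs (ι : Type*) [Fintype ι] (hk : 4 ≤ Fintype.card ι) (ha : ShortBasis ι)
    (hb : ShortClasses ι) (hc : Relation ι) (hd : TripleCount ι) : BadPairs ι := by
  classical
  set k := Fintype.card ι with hkd
  have hk0 : (4 : ℝ) ≤ k := by exact_mod_cast hk
  refine ⟨4 * (k : ℝ) ^ 3 * ((450 * (k : ℝ) ^ 4 + 1) ^ (k - 1)) ^ 3 * (31 * k) ^ (k * (k - 1) - 1),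
    by positivity, ?_⟩
  intro B a ε E₁ x ha1 haB hε0 hε hE haE hSx hPx hBx U hU
  set R : ℝ := 15 * k * a with hR
  have hR0 : 0 ≤ R := by positivity
  obtain ⟨Lx, hLx1, hLx2, hLx3⟩ := ha B a x ha1 (ha1.trans haB) hSx hBx
  obtain ⟨Z, hZ1, hZ2⟩ := hb x Lx R (k * R * ε) hPx hLx1 hLx2 hLx3 hR0 (by positivity)
  have hZ3 : (Z.card : ℝ) ≤ (450 * (k : ℝ) ^ 4 + 1) ^ (k - 1) * E₁ ^ (k - 1) := by
    rw [← mul_pow]
    refine hZ1.trans (pow_le_pow_left₀ (by positivity) ?_ _)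
    have h1 : 2 * ((k : ℝ) * R * (k * R * ε)) = 450 * (k : ℝ) ^ 4 * (a ^ 2 * ε) := by
      rw [hR]; ring
    rw [h1]
    have h2 : 450 * (k : ℝ) ^ 4 * (a ^ 2 * ε) ≤ 450 * (k : ℝ) ^ 4 * E₁ := by gcongr
    nlinarith
  have hdat : ∀ y : ι → ℤ, ∃ L : Fin (k - 1) → ι → ℤ, y ∈ U → LinearIndependent ℤ L ∧
      (∀ j i, |(L j i : ℝ)| ≤ R) ∧ (∀ j, dot (L j) y = 0) ∧
      ∃ j₁ j₂ j₃ : Fin (k - 1), j₁ ≠ j₂ ∧ j₁ ≠ j₃ ∧ j₂ ≠ j₃ ∧
      ∃ z₁ ∈ Z, ∃ z₂ ∈ Z, ∃ z₃ ∈ Z, (∃ i j, mn x z₁ i j ≠ 0) ∧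
        rel3 x z₁ z₂ z₃ (L j₁) (L j₂) (L j₃) = 0 := by
    intro y
    by_cases hy : y ∈ U
    · obtain ⟨h1, h2, h3, h4, h5⟩ := hU y hy
      obtain ⟨L, hL⟩ := one_pair hk ha hc ha1 haB hε hZ2 h1 h3 h4 h5
      exact ⟨L, fun _ => hL⟩
    · exact ⟨fun _ _ => 0, fun h => absurd h hy⟩
  choose Ly hLy using hdat
  have hfib : ∀ L ∈ U.image Ly, (U.filter fun y => Ly y = L).card ≤ 2 := by
    intro L hL
    obtain ⟨y, hy, rfl⟩ := Finset.mem_image.1 hL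
    have hsub : (U.filter fun y' => Ly y' = Ly y) ⊆ {y, -y} := by
      intro y' hy'
      obtain ⟨h1, h2⟩ := Finset.mem_filter.1 hy'
      have h3 := hLy y hy
      have h4 := hLy y' h1
      rw [h2] at h4
      have h5 := mn_zero (by omega) (Ly y) h3.1 y y' h3.2.2.1 h4.2.2.1
      rw [Finset.mem_insert, Finset.mem_singleton]
      exact eq_or_neg (hU y hy).2.1 (hU y' h1).2.1 h5
    exact (Finset.card_le_card hsub).trans Finset.card_le_two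
  have hU1 : U.card ≤ 2 * (U.image Ly).card := Finset.card_le_mul_card_image U 2 hfib
  -- the index set
  let I : Finset ((Fin (k - 1) × Fin (k - 1) × Fin (k - 1)) × (ι → ℤ) × (ι → ℤ) × (ι → ℤ)) :=
    Finset.univ ×ˢ (Z ×ˢ (Z ×ˢ Z))
  let Q : (Fin (k - 1) × Fin (k - 1) × Fin (k - 1)) × (ι → ℤ) × (ι → ℤ) × (ι → ℤ) → Prop :=
    fun q => q.1.1 ≠ q.1.2.1 ∧ q.1.1 ≠ q.1.2.2 ∧ q.1.2.1 ≠ q.1.2.2 ∧
      ∃ i j, mn x q.2.1 i j ≠ 0
  let W : (Fin (k - 1) × Fin (k - 1) × Fin (k - 1)) × (ι → ℤ) × (ι → ℤ) × (ι → ℤ) →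
      Finset (Fin (k - 1) → ι → ℤ) := fun q => if Q q then
        (U.image Ly).filter fun L => rel3 x q.2.1 q.2.2.1 q.2.2.2 (L q.1.1) (L q.1.2.1)
          (L q.1.2.2) = 0 else ∅
  have hbox : ∀ L ∈ U.image Ly, ∀ j i, |(L j i : ℝ)| ≤ R := by
    intro L hL
    obtain ⟨y, hy, rfl⟩ := Finset.mem_image.1 hL
    exact (hLy y hy).2.1
  have hW : ∀ q, ((W q).card : ℝ) ≤ 2 * (2 * R + 1) ^ (3 * k - 1) *
      ((2 * R + 1) ^ k) ^ (k - 1 - 3) := by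
    intro q
    by_cases hq : Q q
    · have h1 : W q = (U.image Ly).filter fun L =>
          rel3 x q.2.1 q.2.2.1 q.2.2.2 (L q.1.1) (L q.1.2.1) (L q.1.2.2) = 0 := if_pos hq
      rw [h1]
      refine card_tuples hd hR0 x q.2.1 q.2.2.1 q.2.2.2 hq.2.2.2 q.1.1 q.1.2.1 q.1.2.2 hq.1
        hq.2.1 hq.2.2.1 _ fun L hL => ?_
      obtain ⟨h2, h3⟩ := Finset.mem_filter.1 hL
      exact ⟨hbox L h2, h3⟩
    · have h1 : W q = ∅ := if_neg hq
      rw [h1, Finset.card_empty, Nat.cast_zero]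
      positivity
  have hcov : U.image Ly ⊆ I.biUnion W := by
    intro L hL
    obtain ⟨y, hy, rfl⟩ := Finset.mem_image.1 hL
    obtain ⟨_, _, _, j₁, j₂, j₃, h12, h13, h23, z₁, hz₁, z₂, hz₂, z₃, hz₃, hm, hr⟩ := hLy y hy
    rw [Finset.mem_biUnion]
    refine ⟨((j₁, j₂, j₃), z₁, z₂, z₃), ?_, ?_⟩
    · simp only [I, Finset.mem_product, Finset.mem_univ, true_and]
      exact ⟨hz₁, hz₂, hz₃⟩
    · have hq : Q ((j₁, j₂, j₃), z₁, z₂, z₃) := ⟨h12, h13, h23, hm⟩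
      have h1 : W ((j₁, j₂, j₃), z₁, z₂, z₃) = (U.image Ly).filter fun L =>
          rel3 x z₁ z₂ z₃ (L j₁) (L j₂) (L j₃) = 0 := if_pos hq
      rw [h1]
      exact Finset.mem_filter.2 ⟨hL, hr⟩
  have hI : (I.card : ℝ) ≤ (k : ℝ) ^ 3 * (Z.card : ℝ) ^ 3 := by
    have h1 : I.card = (k - 1) * ((k - 1) * (k - 1)) * (Z.card * (Z.card * Z.card)) := by
      simp only [I, Finset.card_product, Finset.card_univ, Fintype.card_prod, Fintype.card_fin]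
    have h2 : I.card ≤ k ^ 3 * Z.card ^ 3 := by
      rw [h1]
      have h3 : (k - 1) * ((k - 1) * (k - 1)) ≤ k * (k * k) :=
        Nat.mul_le_mul (Nat.sub_le _ _) (Nat.mul_le_mul (Nat.sub_le _ _) (Nat.sub_le _ _))
      calc (k - 1) * ((k - 1) * (k - 1)) * (Z.card * (Z.card * Z.card))
          ≤ k * (k * k) * (Z.card * (Z.card * Z.card)) := Nat.mul_le_mul_right _ h3
        _ = k ^ 3 * Z.card ^ 3 := by ring
    exact_mod_cast h2
  have hcard1 : ((U.image Ly).card : ℝ) ≤ I.card * (2 * (2 * R + 1) ^ (3 * k - 1) *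
      ((2 * R + 1) ^ k) ^ (k - 1 - 3)) := by
    calc ((U.image Ly).card : ℝ) ≤ ((I.biUnion W).card : ℝ) := by
          exact_mod_cast Finset.card_le_card hcov
      _ ≤ ((∑ q ∈ I, (W q).card : ℕ) : ℝ) := by exact_mod_cast Finset.card_biUnion_le
      _ = ∑ q ∈ I, ((W q).card : ℝ) := by push_cast; rfl
      _ ≤ ∑ _q ∈ I, 2 * (2 * R + 1) ^ (3 * k - 1) * ((2 * R + 1) ^ k) ^ (k - 1 - 3) :=
          Finset.sum_le_sum fun q _ => hW q
      _ = _ := by rw [Finset.sum_const, nsmul_eq_mul]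
  have hpow : (2 * R + 1) ^ (3 * k - 1) * ((2 * R + 1) ^ k) ^ (k - 1 - 3) ≤
      (31 * k) ^ (k * (k - 1) - 1) * a ^ (k * (k - 1) - 1) := by
    rw [← pow_mul, ← pow_add, ← mul_pow]
    have h1 : 3 * k - 1 + k * (k - 1 - 3) = k * (k - 1) - 1 := by
      obtain ⟨m, hm⟩ : ∃ m, k = m + 4 := ⟨k - 4, by omega⟩
      rw [hm]
      have e1 : m + 4 - 1 - 3 = m := by omega
      have e2 : m + 4 - 1 = m + 3 := by omega
      have e3 : 3 * (m + 4) - 1 = 3 * m + 11 := by omega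
      rw [e1, e2, e3]
      have e4 : (m + 4) * (m + 3) = (3 * m + 11 + (m + 4) * m) + 1 := by ring
      rw [e4, Nat.add_sub_cancel]
    rw [h1]
    refine pow_le_pow_left₀ (by positivity) ?_ _
    rw [hR]
    nlinarith
  have hfin : (U.card : ℝ) ≤ 2 * ((U.image Ly).card : ℝ) := by exact_mod_cast hU1
  have hZc : (Z.card : ℝ) ^ 3 ≤ ((450 * (k : ℝ) ^ 4 + 1) ^ (k - 1)) ^ 3 * E₁ ^ (3 * (k - 1)) := by
    have h1 : E₁ ^ (3 * (k - 1)) = (E₁ ^ (k - 1)) ^ 3 := by rw [← pow_mul, mul_comm]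
    rw [h1, ← mul_pow]
    exact pow_le_pow_left₀ (Nat.cast_nonneg _) hZ3 _
  calc (U.card : ℝ) ≤ 2 * (I.card * (2 * (2 * R + 1) ^ (3 * k - 1) *
        ((2 * R + 1) ^ k) ^ (k - 1 - 3))) := hfin.trans (by gcongr)
    _ = 4 * (I.card * ((2 * R + 1) ^ (3 * k - 1) * ((2 * R + 1) ^ k) ^ (k - 1 - 3))) := by ring
    _ ≤ 4 * (((k : ℝ) ^ 3 * (((450 * (k : ℝ) ^ 4 + 1) ^ (k - 1)) ^ 3 * E₁ ^ (3 * (k - 1)))) *
        ((31 * k) ^ (k * (k - 1) - 1) * a ^ (k * (k - 1) - 1))) := by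
        have h1 : (I.card : ℝ) ≤ (k : ℝ) ^ 3 * (((450 * (k : ℝ) ^ 4 + 1) ^ (k - 1)) ^ 3 *
            E₁ ^ (3 * (k - 1))) := hI.trans (by gcongr)
        gcongr
    _ = _ := by ring

end Pool.Agent.Y170.D
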